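import Pool.Agent.Lib.MP_5d9fac_lc.MA

/-!
Complete homomorphisms of complete Boolean algebras, their lower adjoints, homomorphisms given by
projections of preorders, and complete subalgebras of relative algebras.
-/

namespace Pool.Agent.Lib.MP_f79ffc_lc.U

open Pool.Agent.Lib.MP_5d9fac_lc

/-- complete homomorphisms -/
abbrev Hm (X Y : Type) [CompleteBooleanAlgebra X] [CompleteBooleanAlgebra Y] :=
  CompleteLatticeHom X Y

section
variable {X Y Z : Type} [CompleteBooleanAlgebra X] [CompleteBooleanAlgebra Y]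
  [CompleteBooleanAlgebra Z]

theorem hm_mono (f : Hm X Y) {a b : X} (h : a ≤ b) : f a ≤ f b := OrderHomClass.mono f h

theorem hm_compl (f : Hm X Y) (a : X) : f aᶜ = (f a)ᶜ := map_compl' f a

theorem hm_himp (f : Hm X Y) (a b : X) : f (a ⇨ b) = f a ⇨ f b := by
  rw [himp_eq, himp_eq, map_sup, hm_compl]

/-- the lower adjoint (projection) of a homomorphism -/
def pj (f : Hm X Y) (y : Y) : X := sInf {x | y ≤ f x}

theorem pj_le {f : Hm X Y} {y : Y} {x : X} : pj f y ≤ x ↔ y ≤ f x := by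
  refine ⟨fun h => le_trans ?_ (hm_mono f h), fun h => sInf_le h⟩
  rw [pj, map_sInf]
  refine le_sInf ?_
  rintro _ ⟨x, hx, rfl⟩
  exact hx

theorem le_map_pj (f : Hm X Y) (y : Y) : y ≤ f (pj f y) := pj_le.1 le_rfl

theorem pj_gc (f : Hm X Y) : GaloisConnection (pj f) f := fun _ _ => pj_le

theorem pj_mono (f : Hm X Y) {a b : Y} (h : a ≤ b) : pj f a ≤ pj f b := (pj_gc f).monotone_l h

theorem pj_iSup (f : Hm X Y) {ι : Sort*} (y : ι → Y) : pj f (⨆ i, y i) = ⨆ i, pj f (y i) :=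
  (pj_gc f).l_iSup

theorem pj_sup (f : Hm X Y) (a b : Y) : pj f (a ⊔ b) = pj f a ⊔ pj f b := (pj_gc f).l_sup

theorem pj_bot (f : Hm X Y) : pj f ⊥ = ⊥ := (pj_gc f).l_bot

theorem pj_eq_bot {f : Hm X Y} {y : Y} : pj f y = ⊥ ↔ y = ⊥ := by
  rw [← le_bot_iff, pj_le, map_bot, le_bot_iff]

theorem pj_ne_bot {f : Hm X Y} {y : Y} : pj f y ≠ ⊥ ↔ y ≠ ⊥ := pj_eq_bot.not

theorem pj_inf (f : Hm X Y) (y : Y) (x : X) : pj f (y ⊓ f x) = pj f y ⊓ x := by
  refine le_antisymm (le_inf (pj_mono f inf_le_left) (pj_le.2 inf_le_right)) ?_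
  rw [← le_himp_iff, pj_le, hm_himp, le_himp_iff]
  exact le_map_pj f _

theorem pj_inf' (f : Hm X Y) (y : Y) (x : X) : pj f (f x ⊓ y) = x ⊓ pj f y := by
  rw [inf_comm, pj_inf, inf_comm]

theorem inf_map_eq_bot {f : Hm X Y} {y : Y} {x : X} : y ⊓ f x = ⊥ ↔ pj f y ⊓ x = ⊥ := by
  rw [← pj_inf, pj_eq_bot]

theorem inf_map_ne_bot {f : Hm X Y} {y : Y} {x : X} : y ⊓ f x ≠ ⊥ ↔ pj f y ⊓ x ≠ ⊥ :=
  inf_map_eq_bot.not

theorem hm_inj_iff {f : Hm X Y} : Function.Injective f ↔ ∀ x, f x = ⊥ → x = ⊥ := by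
  refine ⟨fun h x hx => h (by rw [hx, map_bot]), fun h a b hab => ?_⟩
  have key : ∀ a b : X, f a = f b → a ≤ b := fun a b hab => by
    rw [← sdiff_eq_bot_iff, sdiff_eq]
    exact h _ (by rw [map_inf, hm_compl, hab, inf_compl_eq_bot])
  exact le_antisymm (key a b hab) (key b a hab.symm)

theorem hm_le_iff {f : Hm X Y} (hf : Function.Injective f) {a b : X} : f a ≤ f b ↔ a ≤ b := by
  refine ⟨fun h => ?_, hm_mono f⟩
  rw [← inf_eq_left] at h ⊢
  exact hf (by rw [map_inf, h])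

theorem hm_ne_bot {f : Hm X Y} (hf : Function.Injective f) {a : X} (ha : a ≠ ⊥) : f a ≠ ⊥ :=
  fun h => ha (hm_inj_iff.1 hf a h)

theorem pj_map {f : Hm X Y} (hf : Function.Injective f) (x : X) : pj f (f x) = x :=
  le_antisymm (pj_le.2 le_rfl) ((hm_le_iff hf).1 (le_map_pj f _))

theorem pj_top {f : Hm X Y} (hf : Function.Injective f) : pj f ⊤ = ⊤ := by
  rw [← map_top f, pj_map hf]

theorem pj_pj {f : Hm X Y} {g : Hm Y Z} {h : Hm X Z} (H : ∀ x, g (f x) = h x) (z : Z) :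
    pj f (pj g z) = pj h z :=
  eq_of_forall_ge_iff fun x => by rw [pj_le, pj_le, pj_le, H]

theorem pj_id {f : Hm X X} (H : ∀ x, f x = x) (z : X) : pj f z = z :=
  eq_of_forall_ge_iff fun x => by rw [pj_le, H]

theorem pj_congr {f g : Hm X Y} (H : ∀ x, f x = g x) (y : Y) : pj f y = pj g y :=
  eq_of_forall_ge_iff fun x => by rw [pj_le, pj_le, H]

theorem le_of_forall_inf {a b : X} (h : ∀ x, x ≠ ⊥ → x ≤ a → x ⊓ b ≠ ⊥) : a ≤ b := by
  by_contra hab
  have h1 : a ⊓ bᶜ ≠ ⊥ := fun h0 => hab (by rwa [← sdiff_eq, sdiff_eq_bot_iff] at h0)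
  exact h _ h1 inf_le_left (by rw [inf_assoc, compl_inf_eq_bot, inf_bot_eq])

theorem exists_inf_ne_bot {ι : Sort*} {a : X} {f : ι → X} (h : a ⊓ ⨆ i, f i ≠ ⊥) :
    ∃ i, a ⊓ f i ≠ ⊥ := by
  by_contra hc
  push Not at hc
  exact h (by rw [inf_iSup_eq]; simp [hc])

theorem exists_inf_ne_bot_of_le {ι : Sort*} {a : X} {f : ι → X} (ha : a ≠ ⊥)
    (h : a ≤ ⨆ i, f i) : ∃ i, a ⊓ f i ≠ ⊥ :=
  exists_inf_ne_bot (by rwa [inf_eq_left.2 h])

theorem exists_ne_bot {ι : Sort*} {f : ι → X} (h : ⨆ i, f i ≠ ⊥) : ∃ i, f i ≠ ⊥ := by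
  by_contra hc
  push Not at hc
  exact h (by simp [hc])

theorem ne_bot_of_le {a b : X} (h : a ≤ b) (ha : a ≠ ⊥) : b ≠ ⊥ := ne_bot_of_le_ne_bot ha h

/-- To show that a square is correct it suffices to test compatibility. -/
theorem pj_eq_of {f : Hm X Y} {y : Y} {x : X} (h1 : y ≤ f x)
    (h2 : ∀ a, a ≠ ⊥ → a ≤ x → y ⊓ f a ≠ ⊥) : pj f y = x :=
  le_antisymm (pj_le.2 h1) (le_of_forall_inf fun a ha hx => by
    rw [inf_comm]; exact inf_map_ne_bot.1 (h2 a ha hx))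

theorem compl_of_sSup_inf (f : X → Y) (hs : ∀ s : Set X, f (sSup s) = ⨆ x ∈ s, f x)
    (hi : ∀ a b, f (a ⊓ b) = f a ⊓ f b) (ht : f ⊤ = ⊤) (a : X) : f aᶜ = (f a)ᶜ := by
  have h0 : f ⊥ = ⊥ := by simpa using hs ∅
  have h1 : f (a ⊔ aᶜ) = f a ⊔ f aᶜ := by
    have := hs {a, aᶜ}
    rwa [sSup_pair, iSup_pair] at this
  refine (IsCompl.compl_eq ⟨?_, ?_⟩).symm
  · rw [disjoint_iff, ← hi, inf_compl_eq_bot, h0]
  · rw [codisjoint_iff, ← h1, sup_compl_eq_top, ht]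

/-- a homomorphism from a map that keeps all suprema, binary meets and the top -/
def mkHm (f : X → Y) (hs : ∀ s : Set X, f (sSup s) = ⨆ x ∈ s, f x)
    (hi : ∀ a b, f (a ⊓ b) = f a ⊓ f b) (ht : f ⊤ = ⊤) : Hm X Y where
  toFun := f
  map_sSup' s := by rw [hs, sSup_image]
  map_sInf' s := by
    have h := compl_of_sSup_inf f hs hi ht
    have h1 : sInf s = (sSup (compl '' s))ᶜ := by
      rw [sSup_image, compl_iSup]
      simp only [compl_iSup, compl_compl, sInf_eq_iInf]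
    rw [h1, h, hs, iSup_image, compl_iSup, sInf_image]
    simp only [compl_iSup, h, compl_compl]

@[simp] theorem mkHm_apply (f : X → Y) (hs hi ht) (x : X) : mkHm f hs hi ht x = f x := rfl

theorem hm_eq_of_le {f g : Hm X Y} (h : ∀ x, f x ≤ g x) (x : X) : f x = g x := by
  refine le_antisymm (h x) ?_
  have := h xᶜ
  rwa [hm_compl, hm_compl, compl_le_compl_iff_le] at this

/-- two homomorphisms agree when their projections agree on a dense set -/
theorem hm_eq_of_pj {f g : Hm X Y} (D : Set Y) (hD : ∀ y, y ≠ ⊥ → ∃ d ∈ D, d ≠ ⊥ ∧ d ≤ y)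
    (h : ∀ d ∈ D, pj g d ≤ pj f d) (x : X) : f x = g x := by
  refine hm_eq_of_le (fun x => le_of_forall_inf fun y hy hx => ?_) x
  obtain ⟨d, hd, h0, h1⟩ := hD y hy
  have h2 : d ≤ g x := pj_le.1 ((h d hd).trans (pj_le.2 (h1.trans hx)))
  exact ne_bot_of_le (le_inf h1 h2) h0

end

/-! ### Homomorphisms from projections -/

/-- a map from a preorder to the nonzero elements of `X` with the lifting property -/
structure Prj (P : Type) [Preorder P] (X : Type) [CompleteBooleanAlgebra X] where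
  g : P → X
  ne : ∀ m, g m ≠ ⊥
  mono : ∀ {m m'}, m' ≤ m → g m' ≤ g m
  lift : ∀ m x, x ≠ ⊥ → x ≤ g m → ∃ m', m' ≤ m ∧ g m' ≤ x

namespace Prj

variable {P X : Type} [Preorder P] [CompleteBooleanAlgebra X] (π : Prj P X)

theorem emb_le_aux {m : P} {x : X} :
    RO.emb m ≤ (⨆ m' : {m' // π.g m' ≤ x}, RO.emb m'.1) ↔ π.g m ≤ x := by
  refine ⟨fun h => le_of_forall_inf fun y hy hm => ?_,
    fun h => le_iSup (fun m' : {m' // π.g m' ≤ x} => RO.emb m'.1) ⟨m, h⟩⟩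
  obtain ⟨m1, h1, h2⟩ := π.lift m y hy hm
  obtain ⟨m2, r, h3, h4⟩ := RO.exists_of_le_iSup ((RO.emb_mono h1).trans h)
  obtain ⟨r', h5, h6⟩ := RO.exists_of_emb_le h4
  exact ne_bot_of_le (le_inf ((π.mono (h5.trans h3)).trans h2) ((π.mono h6).trans m2.2)) (π.ne r')

theorem ro_ext {a b : RO P} (h : ∀ p, RO.emb p ≤ a ↔ RO.emb p ≤ b) : a = b :=
  le_antisymm (RO.le_of_dense fun p hp => ⟨p, le_rfl, (h p).1 hp⟩)
    (RO.le_of_dense fun p hp => ⟨p, le_rfl, (h p).2 hp⟩)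

/-- the homomorphism given by a projection -/
noncomputable def hom : Hm X (RO P) :=
  mkHm (fun x => ⨆ m' : {m' // π.g m' ≤ x}, RO.emb m'.1)
    (fun s => by
      refine le_antisymm (RO.le_of_dense fun p hp => ?_) (iSup₂_le fun x hx => iSup_le fun m =>
        π.emb_le_aux.2 (m.2.trans (le_sSup hx)))
      rw [π.emb_le_aux, sSup_eq_iSup'] at hp
      obtain ⟨x, hx⟩ := exists_inf_ne_bot_of_le (π.ne p) hp
      obtain ⟨r, h1, h2⟩ := π.lift p _ hx inf_le_left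
      exact ⟨r, h1, le_iSup₂_of_le x.1 x.2 (π.emb_le_aux.2 (h2.trans inf_le_right))⟩)
    (fun a b => ro_ext fun p => by
      rw [le_inf_iff, π.emb_le_aux, π.emb_le_aux, π.emb_le_aux, le_inf_iff])
    (ro_ext fun p => by rw [π.emb_le_aux]; simp)

theorem emb_le {m : P} {x : X} : RO.emb m ≤ π.hom x ↔ π.g m ≤ x := π.emb_le_aux

theorem pj_emb (m : P) : pj π.hom (RO.emb m) = π.g m :=
  eq_of_forall_ge_iff fun _ => by rw [pj_le, π.emb_le]

theorem hom_inj (h : ∀ x, x ≠ ⊥ → ∃ m, π.g m ≤ x) : Function.Injective π.hom :=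
  hm_inj_iff.2 fun x hx => by
    by_contra h0
    obtain ⟨m, hm⟩ := h x h0
    exact RO.emb_ne_bot m (le_bot_iff.1 (hx ▸ π.emb_le.2 hm))

end Prj

/-! ### Complete subalgebras of relative algebras -/

/-- a complete subalgebra of the algebra of elements below `top` -/
structure RS (Z : Type) [CompleteBooleanAlgebra Z] where
  top : Z
  car : Set Z
  le_top : ∀ x ∈ car, x ≤ top
  top_mem : top ∈ car
  sSup_mem : ∀ s ⊆ car, sSup s ∈ car
  inf_mem : ∀ x ∈ car, ∀ y ∈ car, x ⊓ y ∈ car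
  cpl_mem : ∀ x ∈ car, top ⊓ xᶜ ∈ car

namespace RS

variable {Z : Type} [CompleteBooleanAlgebra Z] (r : RS Z)

/-- the carrier as a type -/
def T : Type := {x : Z // x ∈ r.car}

theorem sup_mem {x y : Z} (hx : x ∈ r.car) (hy : y ∈ r.car) : x ⊔ y ∈ r.car := by
  rw [← sSup_pair]
  exact r.sSup_mem _ (by rintro _ (rfl | rfl) <;> assumption)

theorem bot_mem : ⊥ ∈ r.car := by
  rw [← sSup_empty]
  exact r.sSup_mem _ (Set.empty_subset _)

theorem sInf_mem (s : Set Z) (hs : s ⊆ r.car) : r.top ⊓ sInf s ∈ r.car := by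
  have h := r.cpl_mem _ (r.sSup_mem ((fun x => r.top ⊓ xᶜ) '' s) (by
    rintro _ ⟨x, hx, rfl⟩
    exact r.cpl_mem x (hs hx)))
  convert h using 1
  rw [sSup_image, compl_iSup]
  simp only [compl_iSup, compl_inf, compl_compl]
  refine le_antisymm (le_inf inf_le_left (le_iInf₂ fun x hx =>
    inf_le_right.trans ((sInf_le hx).trans le_sup_right))) (le_inf inf_le_left (le_sInf fun x hx => ?_))
  refine (inf_le_inf_left _ (iInf₂_le x hx)).trans ?_
  rw [inf_sup_left, inf_compl_eq_bot, bot_sup_eq]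
  exact inf_le_right

instance : Lattice r.T := Subtype.lattice (fun _ _ => r.sup_mem) fun _ _ hx hy => r.inf_mem _ hx _ hy

instance : BooleanAlgebra r.T :=
  { (inferInstance : Lattice r.T) with
    le_sup_inf := fun a b c => (le_sup_inf : (a.1 ⊔ b.1) ⊓ (a.1 ⊔ c.1) ≤ a.1 ⊔ b.1 ⊓ c.1)
    top := ⟨r.top, r.top_mem⟩
    bot := ⟨⊥, r.bot_mem⟩
    compl := fun a => ⟨r.top ⊓ a.1ᶜ, r.cpl_mem _ a.2⟩
    le_top := fun a => r.le_top _ a.2
    bot_le := fun a => (bot_le : ⊥ ≤ a.1)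
    inf_compl_le_bot := fun a => (by
      rw [inf_left_comm, inf_compl_eq_bot, inf_bot_eq] : a.1 ⊓ (r.top ⊓ a.1ᶜ) ≤ ⊥)
    top_le_sup_compl := fun a => (by
      rw [sup_inf_left, sup_compl_eq_top, inf_top_eq]
      exact le_sup_right : r.top ≤ a.1 ⊔ r.top ⊓ a.1ᶜ) }

noncomputable instance : CompleteBooleanAlgebra r.T :=
  { (inferInstance : BooleanAlgebra r.T) with
    sSup := fun s => ⟨sSup (Subtype.val '' s), r.sSup_mem _ (by rintro _ ⟨x, -, rfl⟩; exact x.2)⟩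
    sInf := fun s => ⟨r.top ⊓ sInf (Subtype.val '' s),
      r.sInf_mem _ (by rintro _ ⟨x, -, rfl⟩; exact x.2)⟩
    isLUB_sSup := fun s => ⟨fun a ha => (le_sSup ⟨a, ha, rfl⟩ : a.1 ≤ sSup (Subtype.val '' s)),
      fun a ha => (sSup_le (by rintro _ ⟨x, hx, rfl⟩; exact ha hx) :
        sSup (Subtype.val '' s) ≤ a.1)⟩
    isGLB_sInf := fun s => ⟨fun a ha => (inf_le_right.trans (sInf_le ⟨a, ha, rfl⟩) :
        r.top ⊓ sInf (Subtype.val '' s) ≤ a.1),
      fun a ha => (le_inf (r.le_top _ a.2) (le_sInf (by rintro _ ⟨x, hx, rfl⟩; exact ha hx)) :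
        a.1 ≤ r.top ⊓ sInf (Subtype.val '' s))⟩ }

variable {r}

theorem ext {a b : r.T} (h : a.1 = b.1) : a = b := Subtype.ext h
theorem val_le {a b : r.T} : a.1 ≤ b.1 ↔ a ≤ b := Iff.rfl
theorem val_le_top (a : r.T) : a.1 ≤ r.top := r.le_top _ a.2
@[simp] theorem val_inf (a b : r.T) : (a ⊓ b).1 = a.1 ⊓ b.1 := rfl
@[simp] theorem val_sup (a b : r.T) : (a ⊔ b).1 = a.1 ⊔ b.1 := rfl
@[simp] theorem val_top : (⊤ : r.T).1 = r.top := rfl
@[simp] theorem val_bot : (⊥ : r.T).1 = ⊥ := rfl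
@[simp] theorem val_compl (a : r.T) : (aᶜ).1 = r.top ⊓ a.1ᶜ := rfl
theorem val_sSup (s : Set r.T) : (sSup s).1 = ⨆ x ∈ s, x.1 := sSup_image
theorem val_eq_bot {a : r.T} : a.1 = ⊥ ↔ a = ⊥ := ⟨fun h => ext h, fun h => by rw [h]; rfl⟩
theorem val_ne_bot {a : r.T} : a.1 ≠ ⊥ ↔ a ≠ ⊥ := val_eq_bot.not

@[simp] theorem val_iSup {ι : Sort*} (f : ι → r.T) : (⨆ i, f i).1 = ⨆ i, (f i).1 := by
  rw [iSup, val_sSup, iSup_range]

theorem val_iInf {ι : Sort*} (f : ι → r.T) : (⨅ i, f i).1 = r.top ⊓ ⨅ i, (f i).1 := by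
  show r.top ⊓ sInf (Subtype.val '' Set.range f) = _
  rw [sInf_image, iInf_range]

/-- a homomorphism into a relative subalgebra -/
noncomputable def lift {X : Type} [CompleteBooleanAlgebra X] (f : X → Z) (hm : ∀ x, f x ∈ r.car)
    (hs : ∀ s : Set X, f (sSup s) = ⨆ x ∈ s, f x) (hi : ∀ a b, f (a ⊓ b) = f a ⊓ f b)
    (ht : f ⊤ = r.top) : Hm X r.T :=
  mkHm (fun x => ⟨f x, hm x⟩) (fun s => ext (by simp only [val_iSup]; exact hs s))
    (fun a b => ext (hi a b)) (ext ht)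

@[simp] theorem lift_val {X : Type} [CompleteBooleanAlgebra X] (f : X → Z) (hm hs hi ht) (x : X) :
    (lift (r := r) f hm hs hi ht x).1 = f x := rfl

/-- all elements below `d` -/
def below (d : Z) : RS Z where
  top := d
  car := Set.Iic d
  le_top _ h := h
  top_mem := le_refl d
  sSup_mem _ hs := sSup_le hs
  inf_mem _ hx _ _ := inf_le_left.trans hx
  cpl_mem _ _ := inf_le_left

theorem ccc [h : Fact (CCC Z)] : CCC r.T := fun ι f hf =>
  (h.out ι (fun i => (f i).1) fun i j hij => congrArg Subtype.val (hf i j hij)).mono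
    fun _ hi => val_ne_bot.2 hi

end RS

end Pool.Agent.Lib.MP_f79ffc_lc.U
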