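import Pool.Agent.Lib.MP_f79ffc_lc.U.FinalOf
import Pool.Agent.Lib.MP_f79ffc_lc.U.A.Tok

/-!
The statement of the hand-in.
-/

namespace Pool.Agent.Lib.MP_f79ffc_lc.St

open Pool.Agent.Lib.MP_5d9fac_lc Pool.Agent.Lib.MP_c1e359_an Pool.Agent.Lib.MP_f79ffc_lc.U

theorem final : ∃ (M : Type 1) (E : M → M → Prop), IsZFC E ∧ ∃ w : M, IsOmega E w ∧
    (∃ (F : RF M) (Bo : M), IsReals E F ∧ IsBorel E F w Bo) ∧
    ∀ (F : RF M) (Bo : M), IsReals E F → IsBorel E F w Bo →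
      ∃ k l : M, IsAdd E (LebNull E F w) k ∧ IsAdd E (UnivNull E F w Bo) l ∧ E k l :=
  final_of genTok

end Pool.Agent.Lib.MP_f79ffc_lc.St
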