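import Pool.Agent.Lib.MP_f79ffc_lc.U.M.Bridge
import Pool.Agent.Lib.MP_f79ffc_lc.U.M.Bor
import Pool.Agent.Lib.MP_f79ffc_lc.U.M.Reals
import Pool.Agent.Lib.MP_f79ffc_lc.U.S.SmallBB
import Pool.Agent.Lib.MP_f79ffc_lc.U.S.Union
import Pool.Agent.Lib.MP_f79ffc_lc.U.A.Outer

/-!
The statement of the hand-in from the generator and token steps.
-/

namespace Pool.Agent.Lib.MP_f79ffc_lc.St

open Pool.Agent.Lib.MP_5d9fac_lc Pool.Agent.Lib.MP_c1e359_an Pool.Agent.Lib.MP_f79ffc_lc.U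

theorem final_of (H : GenTok) : ∃ (M : Type 1) (E : M → M → Prop), IsZFC E ∧ ∃ w : M, IsOmega E w ∧
    (∃ (F : RF M) (Bo : M), IsReals E F ∧ IsBorel E F w Bo) ∧
    ∀ (F : RF M) (Bo : M), IsReals E F → IsBorel E F w Bo →
      ∃ k l : M, IsAdd E (LebNull E F w) k ∧ IsAdd E (UnivNull E F w Bo) l ∧ E k l := by
  obtain ⟨ι, -, -, h1, h2⟩ := smallAdd_BB
  have h3 : BigAdd BB ι := bigAdd_of h1 fun X f hX hf h => claimA_of H hX hf h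
  obtain ⟨U, -⟩ := Ult.exists_of_ne_bot BB_ne
  obtain ⟨F, hF⟩ := exists_reals U
  obtain ⟨Bo, hBo⟩ := exists_borel U F
  exact ⟨Mod U, Mem U, isZFC_mod U, _, isOmega_omega U, ⟨F, Bo, hF, hBo⟩,
    fun F Bo hF hBo => bridge_mod h2 h3 U F hF Bo hBo⟩

end Pool.Agent.Lib.MP_f79ffc_lc.St
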