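import Pool.Agent.Lib.MP_f79ffc_lc.U.Base

/-!
Systems of complete Boolean algebras over a preorder, terms (finite tree amalgams), the chain
condition `K`, unbounded matrices and morphisms of systems.
-/

namespace Pool.Agent.Lib.MP_f79ffc_lc.U

open Pool.Agent.Lib.MP_5d9fac_lc Cardinal

/-- a functor from a preorder to complete Boolean algebras with injective homomorphisms -/
structure Sys (I : Type) [Preorder I] : Type 1 where
  X : I → Type
  inst : ∀ i, CompleteBooleanAlgebra (X i)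
  e : ∀ {i j : I}, i ≤ j → Hm (X i) (X j)
  inj : ∀ {i j : I} (h : i ≤ j), Function.Injective (e h)
  e_refl : ∀ {i : I} (h : i ≤ i) (x : X i), e h x = x
  e_trans : ∀ {i j k : I} (h : i ≤ j) (h' : j ≤ k) (x : X i), e h' (e h x) = e (h.trans h') x

attribute [instance] Sys.inst

/-- finite trees of indices; every node carries one slot -/
inductive Tm (I : Type) [Preorder I] : I → Type
  | var (i : I) : Tm I i
  | emb {i j : I} (t : Tm I i) (h : j ≤ i) (s : Tm I j) : Tm I i
  | prj {i j : I} (t : Tm I i) (h : i ≤ j) (s : Tm I j) : Tm I i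

variable {I J : Type} [Preorder I] [Preorder J]

/-- one element of `Y i` for every slot of index `i` -/
def Fam (Y : I → Type) : ∀ {i : I}, Tm I i → Type
  | _, .var i => Y i
  | _, .emb t _ s => Fam Y t × Fam Y s
  | _, .prj t _ s => Fam Y t × Fam Y s

namespace Fam

variable {Y Y' Y'' : I → Type}

def head : ∀ {i : I} (t : Tm I i), Fam Y t → Y i
  | _, .var _, a => a
  | _, .emb t _ _, a => head t a.1
  | _, .prj t _ _, a => head t a.1

def map (f : ∀ i, Y i → Y' i) : ∀ {i : I} (t : Tm I i), Fam Y t → Fam Y' t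
  | _, .var i, a => f i a
  | _, .emb t _ s, a => (map f t a.1, map f s a.2)
  | _, .prj t _ s, a => (map f t a.1, map f s a.2)

def map₂ (f : ∀ i, Y i → Y' i → Y'' i) : ∀ {i : I} (t : Tm I i), Fam Y t → Fam Y' t → Fam Y'' t
  | _, .var i, a, b => f i a b
  | _, .emb t _ s, a, b => (map₂ f t a.1 b.1, map₂ f s a.2 b.2)
  | _, .prj t _ s, a, b => (map₂ f t a.1 b.1, map₂ f s a.2 b.2)

def const (f : ∀ i, Y i) : ∀ {i : I} (t : Tm I i), Fam Y t
  | _, .var i => f i
  | _, .emb t _ s => (const f t, const f s)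
  | _, .prj t _ s => (const f t, const f s)

/-- a family of assignments as one assignment of families -/
def pi {ι : Type} : ∀ {i : I} (t : Tm I i), (ι → Fam Y t) → Fam (fun i => ι → Y i) t
  | _, .var _, a => a
  | _, .emb t _ s, a => (pi t fun k => (a k).1, pi s fun k => (a k).2)
  | _, .prj t _ s, a => (pi t fun k => (a k).1, pi s fun k => (a k).2)

/-- change the head slot -/
def modHead : ∀ {i : I} (t : Tm I i), (Y i → Y i) → Fam Y t → Fam Y t
  | _, .var _, f, a => f a
  | _, .emb t _ _, f, a => (modHead t f a.1, a.2)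
  | _, .prj t _ _, f, a => (modHead t f a.1, a.2)

def All (P : ∀ i, Y i → Prop) : ∀ {i : I} (t : Tm I i), Fam Y t → Prop
  | _, .var i, a => P i a
  | _, .emb t _ s, a => All P t a.1 ∧ All P s a.2
  | _, .prj t _ s, a => All P t a.1 ∧ All P s a.2

def All₂ (P : ∀ i, Y i → Y' i → Prop) : ∀ {i : I} (t : Tm I i), Fam Y t → Fam Y' t → Prop
  | _, .var i, a, b => P i a b
  | _, .emb t _ s, a, b => All₂ P t a.1 b.1 ∧ All₂ P s a.2 b.2
  | _, .prj t _ s, a, b => All₂ P t a.1 b.1 ∧ All₂ P s a.2 b.2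

end Fam

/-- number of slots -/
def Tm.size : ∀ {i : I}, Tm I i → ℕ
  | _, .var _ => 1
  | _, .emb t _ s => t.size + s.size
  | _, .prj t _ s => t.size + s.size

namespace Sys

/-- pull back along a monotone map -/
@[reducible] def comap (S : Sys I) (f : J → I) (hf : Monotone f) : Sys J where
  X j := S.X (f j)
  inst j := S.inst (f j)
  e h := S.e (hf h)
  inj h := S.inj (hf h)
  e_refl h := S.e_refl (hf h)
  e_trans h h' := S.e_trans (hf h) (hf h')

variable (S : Sys I)

/-- the projection along an arrow -/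
abbrev p {i j : I} (h : i ≤ j) (y : S.X j) : S.X i := pj (S.e h) y

/-- assignments -/
abbrev Asg {i : I} (t : Tm I i) : Type := Fam S.X t

/-- the value of an assignment at the root -/
def val : ∀ {i : I} (t : Tm I i), S.Asg t → S.X i
  | _, .var _, a => a
  | _, .emb t h s, a => val t a.1 ⊓ S.e h (val s a.2)
  | _, .prj t h s, a => val t a.1 ⊓ S.p h (val s a.2)

/-- pointwise order -/
def Le {i : I} (t : Tm I i) (a b : S.Asg t) : Prop := Fam.All₂ (fun _ x y => x ≤ y) t a b

/-- pointwise meet -/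
def inf {i : I} (t : Tm I i) (a b : S.Asg t) : S.Asg t := Fam.map₂ (fun _ x y => x ⊓ y) t a b

/-- the member `k` of a family of assignments -/
def mem {ι : Type} {i : I} (t : Tm I i) (a : Fam (fun i => ι → S.X i) t) (k : ι) : S.Asg t :=
  Fam.map (fun _ p => p k) t a

/-- the meet of finitely many members of a family of assignments -/
def fin {ι : Type} {i : I} (t : Tm I i) (a : Fam (fun i => ι → S.X i) t) (F : Finset ι) :
    S.Asg t := Fam.map (fun _ p => F.inf p) t a

/-- coherent assignments -/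
def Coh : ∀ {i : I} (t : Tm I i), S.Asg t → Prop
  | _, .var _, a => a ≠ (⊥ : S.X _)
  | _, .emb t h s, a => Coh t a.1 ∧ Coh s a.2 ∧ S.p h (Fam.head t a.1) = Fam.head s a.2
  | _, .prj t h s, a => Coh t a.1 ∧ Coh s a.2 ∧ S.p h (Fam.head s a.2) = Fam.head t a.1

/-- functions on finite sets of indices generated by meets of families and by the arrows -/
inductive Gn (ι : Type) : ∀ i : I, (Finset ι → S.X i) → Prop
  | var (i : I) (p : ι → S.X i) : Gn ι i fun F => F.inf p
  | emb {i j : I} (h : j ≤ i) {Φ : Finset ι → S.X i} {Ψ : Finset ι → S.X j} :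
      Gn ι i Φ → Gn ι j Ψ → Gn ι i fun F => Φ F ⊓ S.e h (Ψ F)
  | prj {i j : I} (h : i ≤ j) {Φ : Finset ι → S.X i} {Ψ : Finset ι → S.X j} :
      Gn ι i Φ → Gn ι j Ψ → Gn ι i fun F => Φ F ⊓ S.p h (Ψ F)

end Sys

/-- inside `A₀` there is a set of full size in which every finite set has a large good part -/
def Frac {ι : Type} (A₀ : Set ι) (good : Finset ι → Prop) : Prop :=
  ∀ ε : ℝ, 0 < ε → ∃ A, A ⊆ A₀ ∧ #A = #ι ∧ ∀ F : Finset ι, (F : Set ι) ⊆ A →
    ∃ F', F' ⊆ F ∧ (1 - ε) * F.card ≤ F'.card ∧ good F'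

/-- the chain condition for all finite tree amalgams -/
def Sys.K (S : Sys I) : Prop :=
  ∀ ι : Type, (#ι).IsRegular → ℵ₀ < #ι → ∀ (i : I) (Φ : Finset ι → S.X i), S.Gn ι i Φ →
    ∀ A₀ : Set ι, #A₀ = #ι → (∀ k ∈ A₀, Φ {k} ≠ ⊥) → Frac A₀ fun F => Φ F ≠ ⊥

section
variable {X Y : Type} [CompleteBooleanAlgebra X] [CompleteBooleanAlgebra Y]

/-- `t n k` is the truth value of `T n > k` for a nondecreasing `T` -/
def Mat (t : ℕ → ℕ → Y) : Prop := (∀ n k, t n k ≤ t (n + 1) k) ∧ ∀ n k, t n (k + 1) ≤ t n k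

/-- `T` is unbounded over the extension by `X` -/
def Unb (e : Hm X Y) (t : ℕ → ℕ → Y) : Prop :=
  ∀ p, p ≠ ⊥ → ∃ n, (⨅ k, pj e (p ⊓ t n k)) ≠ ⊥

end

/-- morphisms: correct complete embeddings with reductions for all terms -/
structure Mor (S S' : Sys I) where
  ι : ∀ i, Hm (S.X i) (S'.X i)
  inj : ∀ i, Function.Injective (ι i)
  comm : ∀ {i j : I} (h : i ≤ j) (x : S.X i), S'.e h (ι i x) = ι j (S.e h x)
  corr : ∀ {i j : I} (h : i ≤ j) (y : S.X j), S'.p h (ι j y) = ι i (S.p h y)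
  red : ∀ {i : I} (t : Tm I i) (a' : S'.Asg t), S'.val t a' ≠ ⊥ → ∃ a : S.Asg t, S.val t a ≠ ⊥ ∧
    ∀ b : S.Asg t, S.Le t b a → S.val t b ≠ ⊥ →
      S'.val t (S'.inf t a' (Fam.map (fun i => ι i) t b)) ≠ ⊥

/-- the image of an assignment -/
def Mor.map {S S' : Sys I} (m : Mor S S') {i : I} (t : Tm I i) (a : S.Asg t) : S'.Asg t :=
  Fam.map (fun i => m.ι i) t a

/-- unbounded matrices along the arrow `h` stay unbounded -/
def Mor.Keeps {S S' : Sys I} (m : Mor S S') {i j : I} (h : i ≤ j) : Prop :=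
  ∀ t : ℕ → ℕ → S.X j, Mat t → Unb (S.e h) t → Unb (S'.e h) fun n k => m.ι j (t n k)

end Pool.Agent.Lib.MP_f79ffc_lc.U
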