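import Pool.Agent.Lib.MP_f79ffc_lc.U.Sys

/-!
Basic facts on assignments, coherence, the condition `K` and unbounded matrices.
-/

namespace Pool.Agent.Lib.MP_f79ffc_lc.U

open Pool.Agent.Lib.MP_5d9fac_lc Cardinal

variable {I J : Type} [Preorder I] [Preorder J]

namespace Fam

variable {Y Y' Y'' : I → Type}

theorem All.mono {P Q : ∀ i, Y i → Prop} (h : ∀ i x, P i x → Q i x) :
    ∀ {i : I} (t : Tm I i) {a : Fam Y t}, All P t a → All Q t a
  | _, .var _, _, H => h _ _ H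
  | _, .emb t _ s, _, H => ⟨All.mono h t H.1, All.mono h s H.2⟩
  | _, .prj t _ s, _, H => ⟨All.mono h t H.1, All.mono h s H.2⟩

theorem All₂.mono {P Q : ∀ i, Y i → Y' i → Prop} (h : ∀ i x y, P i x y → Q i x y) :
    ∀ {i : I} (t : Tm I i) {a : Fam Y t} {b : Fam Y' t}, All₂ P t a b → All₂ Q t a b
  | _, .var _, _, _, H => h _ _ _ H
  | _, .emb t _ s, _, _, H => ⟨All₂.mono h t H.1, All₂.mono h s H.2⟩
  | _, .prj t _ s, _, _, H => ⟨All₂.mono h t H.1, All₂.mono h s H.2⟩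

theorem All₂.head {P : ∀ i, Y i → Y' i → Prop} :
    ∀ {i : I} (t : Tm I i) {a : Fam Y t} {b : Fam Y' t}, All₂ P t a b →
      P i (head t a) (head t b)
  | _, .var _, _, _, H => H
  | _, .emb t _ _, _, _, H => All₂.head t H.1
  | _, .prj t _ _, _, _, H => All₂.head t H.1

theorem All.head {P : ∀ i, Y i → Prop} :
    ∀ {i : I} (t : Tm I i) {a : Fam Y t}, All P t a → P i (head t a)
  | _, .var _, _, H => H
  | _, .emb t _ _, _, H => All.head t H.1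
  | _, .prj t _ _, _, H => All.head t H.1

theorem all_of {P : ∀ i, Y i → Prop} (h : ∀ i x, P i x) :
    ∀ {i : I} (t : Tm I i) (a : Fam Y t), All P t a
  | _, .var _, _ => h _ _
  | _, .emb t _ s, a => ⟨all_of h t a.1, all_of h s a.2⟩
  | _, .prj t _ s, a => ⟨all_of h t a.1, all_of h s a.2⟩

/-- the general two step rule for slotwise relations -/
theorem All₂.comp {P : ∀ i, Y i → Y' i → Prop} {Q : ∀ i, Y' i → Y'' i → Prop}
    {R : ∀ i, Y i → Y'' i → Prop} (h : ∀ i x y z, P i x y → Q i y z → R i x z) :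
    ∀ {i : I} (t : Tm I i) {a : Fam Y t} {b : Fam Y' t} {c : Fam Y'' t},
      All₂ P t a b → All₂ Q t b c → All₂ R t a c
  | _, .var _, _, _, _, H, H' => h _ _ _ _ H H'
  | _, .emb t _ s, _, _, _, H, H' => ⟨All₂.comp h t H.1 H'.1, All₂.comp h s H.2 H'.2⟩
  | _, .prj t _ s, _, _, _, H, H' => ⟨All₂.comp h t H.1 H'.1, All₂.comp h s H.2 H'.2⟩

theorem all₂_map {P : ∀ i, Y i → Y' i → Prop} (f : ∀ i, Y i → Y' i) (h : ∀ i x, P i x (f i x)) :
    ∀ {i : I} (t : Tm I i) (a : Fam Y t), All₂ P t a (map f t a)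
  | _, .var _, _ => h _ _
  | _, .emb t _ s, a => ⟨all₂_map f h t a.1, all₂_map f h s a.2⟩
  | _, .prj t _ s, a => ⟨all₂_map f h t a.1, all₂_map f h s a.2⟩

theorem all₂_map_map {Z Z' : I → Type} {P : ∀ i, Y i → Y' i → Prop} {Q : ∀ i, Z i → Z' i → Prop}
    (f : ∀ i, Y i → Z i) (g : ∀ i, Y' i → Z' i) (h : ∀ i x y, P i x y → Q i (f i x) (g i y)) :
    ∀ {i : I} (t : Tm I i) {a : Fam Y t} {b : Fam Y' t}, All₂ P t a b →
      All₂ Q t (map f t a) (map g t b)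
  | _, .var _, _, _, H => h _ _ _ H
  | _, .emb t _ s, _, _, H => ⟨all₂_map_map f g h t H.1, all₂_map_map f g h s H.2⟩
  | _, .prj t _ s, _, _, H => ⟨all₂_map_map f g h t H.1, all₂_map_map f g h s H.2⟩

theorem all₂_map_same {Z Z' : I → Type} {Q : ∀ i, Z i → Z' i → Prop}
    (f : ∀ i, Y i → Z i) (g : ∀ i, Y i → Z' i) (h : ∀ i x, Q i (f i x) (g i x)) :
    ∀ {i : I} (t : Tm I i) (a : Fam Y t), All₂ Q t (map f t a) (map g t a)
  | _, .var _, _ => h _ _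
  | _, .emb t _ s, a => ⟨all₂_map_same f g h t a.1, all₂_map_same f g h s a.2⟩
  | _, .prj t _ s, a => ⟨all₂_map_same f g h t a.1, all₂_map_same f g h s a.2⟩

theorem map_map (f : ∀ i, Y i → Y' i) (g : ∀ i, Y' i → Y'' i) :
    ∀ {i : I} (t : Tm I i) (a : Fam Y t), map g t (map f t a) = map (fun i x => g i (f i x)) t a
  | _, .var _, _ => rfl
  | _, .emb t _ s, a => Prod.ext (map_map f g t a.1) (map_map f g s a.2)
  | _, .prj t _ s, a => Prod.ext (map_map f g t a.1) (map_map f g s a.2)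

theorem map_id' (f : ∀ i, Y i → Y i) (h : ∀ i x, f i x = x) :
    ∀ {i : I} (t : Tm I i) (a : Fam Y t), map f t a = a
  | _, .var _, _ => h _ _
  | _, .emb t _ s, a => Prod.ext (map_id' f h t a.1) (map_id' f h s a.2)
  | _, .prj t _ s, a => Prod.ext (map_id' f h t a.1) (map_id' f h s a.2)

theorem map_congr {f g : ∀ i, Y i → Y' i} (h : ∀ i x, f i x = g i x) {i : I} (t : Tm I i)
    (a : Fam Y t) : map f t a = map g t a := by
  obtain rfl : f = g := funext fun i => funext (h i)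
  rfl

theorem head_map (f : ∀ i, Y i → Y' i) :
    ∀ {i : I} (t : Tm I i) (a : Fam Y t), head t (map f t a) = f i (head t a)
  | _, .var _, _ => rfl
  | _, .emb t _ _, a => head_map f t a.1
  | _, .prj t _ _, a => head_map f t a.1

theorem head_map₂ (f : ∀ i, Y i → Y' i → Y'' i) :
    ∀ {i : I} (t : Tm I i) (a : Fam Y t) (b : Fam Y' t),
      head t (map₂ f t a b) = f i (head t a) (head t b)
  | _, .var _, _, _ => rfl
  | _, .emb t _ _, a, b => head_map₂ f t a.1 b.1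
  | _, .prj t _ _, a, b => head_map₂ f t a.1 b.1

theorem head_modHead : ∀ {i : I} (t : Tm I i) (f : Y i → Y i) (a : Fam Y t),
    head t (modHead t f a) = f (head t a)
  | _, .var _, _, _ => rfl
  | _, .emb t _ _, f, a => head_modHead t f a.1
  | _, .prj t _ _, f, a => head_modHead t f a.1

theorem map_pi {ι : Type} (k : ι) : ∀ {i : I} (t : Tm I i) (a : ι → Fam Y t),
    map (fun _ p => p k) t (pi t a) = a k
  | _, .var _, _ => rfl
  | _, .emb t _ s, a => Prod.ext (map_pi k t fun k => (a k).1) (map_pi k s fun k => (a k).2)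
  | _, .prj t _ s, a => Prod.ext (map_pi k t fun k => (a k).1) (map_pi k s fun k => (a k).2)

/-- slotwise choice -/
theorem exists_all₂ {P : ∀ i, Y i → Y' i → Prop} :
    ∀ {i : I} (t : Tm I i) {a : Fam Y t}, All (fun i x => ∃ y, P i x y) t a →
      ∃ b : Fam Y' t, All₂ P t a b
  | _, .var _, _, H => H
  | _, .emb t _ s, _, H => by
    obtain ⟨b, hb⟩ := exists_all₂ t H.1
    obtain ⟨c, hc⟩ := exists_all₂ s H.2
    exact ⟨(b, c), hb, hc⟩
  | _, .prj t _ s, _, H => by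
    obtain ⟨b, hb⟩ := exists_all₂ t H.1
    obtain ⟨c, hc⟩ := exists_all₂ s H.2
    exact ⟨(b, c), hb, hc⟩

theorem countable [h : ∀ i, Countable (Y i)] : ∀ {i : I} (t : Tm I i), Countable (Fam Y t)
  | _, .var i => h i
  | _, .emb t _ s => by
    have := countable t
    have := countable s
    exact inferInstanceAs (Countable (Fam Y t × Fam Y s))
  | _, .prj t _ s => by
    have := countable t
    have := countable s
    exact inferInstanceAs (Countable (Fam Y t × Fam Y s))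

end Fam

theorem Tm.size_pos : ∀ {i : I} (t : Tm I i), 0 < t.size
  | _, .var _ => Nat.one_pos
  | _, .emb t _ _ => Nat.add_pos_left t.size_pos _
  | _, .prj t _ _ => Nat.add_pos_left t.size_pos _

namespace Sys

variable {S : Sys I}

theorem p_p {i j k : I} (h : i ≤ j) (h' : j ≤ k) (z : S.X k) :
    S.p h (S.p h' z) = S.p (h.trans h') z := pj_pj (S.e_trans h h') z

theorem p_refl {i : I} (h : i ≤ i) (z : S.X i) : S.p h z = z := pj_id (S.e_refl h) z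

theorem p_e {i j : I} (h : i ≤ j) (x : S.X i) : S.p h (S.e h x) = x := pj_map (S.inj h) x

theorem le_rfl' : ∀ {i : I} (t : Tm I i) (a : S.Asg t), S.Le t a a
  | _, .var _, a => le_refl (α := S.X _) a
  | _, .emb t _ s, a => ⟨le_rfl' t a.1, le_rfl' s a.2⟩
  | _, .prj t _ s, a => ⟨le_rfl' t a.1, le_rfl' s a.2⟩

theorem Le.trans {i : I} {t : Tm I i} {a b c : S.Asg t} (h : S.Le t a b) (h' : S.Le t b c) :
    S.Le t a c :=
  Fam.All₂.comp (P := fun i (x y : S.X i) => x ≤ y) (Q := fun i (x y : S.X i) => x ≤ y)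
    (R := fun i (x y : S.X i) => x ≤ y) (fun _ _ _ _ => le_trans) t h h'

theorem inf_le_l : ∀ {i : I} (t : Tm I i) (a b : S.Asg t), S.Le t (S.inf t a b) a
  | _, .var _, _, _ => inf_le_left (α := S.X _)
  | _, .emb t _ s, a, b => ⟨inf_le_l t a.1 b.1, inf_le_l s a.2 b.2⟩
  | _, .prj t _ s, a, b => ⟨inf_le_l t a.1 b.1, inf_le_l s a.2 b.2⟩

theorem inf_le_r : ∀ {i : I} (t : Tm I i) (a b : S.Asg t), S.Le t (S.inf t a b) b
  | _, .var _, _, _ => inf_le_right (α := S.X _)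
  | _, .emb t _ s, a, b => ⟨inf_le_r t a.1 b.1, inf_le_r s a.2 b.2⟩
  | _, .prj t _ s, a, b => ⟨inf_le_r t a.1 b.1, inf_le_r s a.2 b.2⟩

theorem le_inf' : ∀ {i : I} (t : Tm I i) {a b c : S.Asg t}, S.Le t c a → S.Le t c b →
    S.Le t c (S.inf t a b)
  | _, .var _, _, _, _, h, h' => le_inf (α := S.X _) h h'
  | _, .emb t _ s, _, _, _, h, h' => ⟨le_inf' t h.1 h'.1, le_inf' s h.2 h'.2⟩
  | _, .prj t _ s, _, _, _, h, h' => ⟨le_inf' t h.1 h'.1, le_inf' s h.2 h'.2⟩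

theorem inf_mono {i : I} {t : Tm I i} {a b c d : S.Asg t} (h : S.Le t a c) (h' : S.Le t b d) :
    S.Le t (S.inf t a b) (S.inf t c d) :=
  le_inf' t ((inf_le_l t a b).trans h) ((inf_le_r t a b).trans h')

theorem head_mono {i : I} {t : Tm I i} {a b : S.Asg t} (h : S.Le t a b) :
    Fam.head t a ≤ Fam.head t b := Fam.All₂.head t h

theorem val_mono : ∀ {i : I} (t : Tm I i) {a b : S.Asg t}, S.Le t a b → S.val t a ≤ S.val t b
  | _, .var _, _, _, h => h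
  | _, .emb t _ s, _, _, h => inf_le_inf (val_mono t h.1) (hm_mono _ (val_mono s h.2))
  | _, .prj t _ s, _, _, h => inf_le_inf (val_mono t h.1) (pj_mono _ (val_mono s h.2))

theorem val_ne_of_le {i : I} {t : Tm I i} {a b : S.Asg t} (h : S.Le t a b) (ha : S.val t a ≠ ⊥) :
    S.val t b ≠ ⊥ := ne_bot_of_le (val_mono t h) ha

theorem val_le_head : ∀ {i : I} (t : Tm I i) (a : S.Asg t), S.val t a ≤ Fam.head t a
  | _, .var _, a => le_refl (α := S.X _) a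
  | _, .emb t _ _, a => inf_le_left.trans (val_le_head t a.1)
  | _, .prj t _ _, a => inf_le_left.trans (val_le_head t a.1)

theorem val_modHead : ∀ {i : I} (t : Tm I i) (x : S.X i) (a : S.Asg t),
    S.val t (Fam.modHead t (· ⊓ x) a) = S.val t a ⊓ x
  | _, .var _, _, _ => rfl
  | _, .emb t h s, x, a => by
    show S.val t (Fam.modHead t (· ⊓ x) a.1) ⊓ S.e h (S.val s a.2) = S.val t a.1 ⊓ _ ⊓ x
    rw [val_modHead t x a.1, inf_right_comm]
  | _, .prj t h s, x, a => by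
    show S.val t (Fam.modHead t (· ⊓ x) a.1) ⊓ S.p h (S.val s a.2) = S.val t a.1 ⊓ _ ⊓ x
    rw [val_modHead t x a.1, inf_right_comm]

theorem modHead_le : ∀ {i : I} (t : Tm I i) (x : S.X i) (a : S.Asg t),
    S.Le t (Fam.modHead t (· ⊓ x) a) a
  | _, .var _, _, _ => inf_le_left (α := S.X _)
  | _, .emb t _ s, x, a => ⟨modHead_le t x a.1, le_rfl' s a.2⟩
  | _, .prj t _ s, x, a => ⟨modHead_le t x a.1, le_rfl' s a.2⟩

theorem le_modHead : ∀ {i : I} (t : Tm I i) {x : S.X i} {a b : S.Asg t},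
    S.Le t b a → Fam.head t b ≤ x → S.Le t b (Fam.modHead t (· ⊓ x) a)
  | _, .var _, _, _, _, h, h' => le_inf (α := S.X _) h h'
  | _, .emb t _ _, _, _, _, h, h' => ⟨le_modHead t h.1 h', h.2⟩
  | _, .prj t _ _, _, _, _, h, h' => ⟨le_modHead t h.1 h', h.2⟩

theorem all_ne_bot : ∀ {i : I} (t : Tm I i) {a : S.Asg t}, S.val t a ≠ ⊥ →
    Fam.All (fun _ x => x ≠ ⊥) t a
  | _, .var _, _, h => h
  | _, .emb t h s, a, H => ⟨all_ne_bot t (ne_bot_of_le inf_le_left H), all_ne_bot s fun h0 =>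
      H (show S.val t a.1 ⊓ S.e h (S.val s a.2) = ⊥ by rw [h0, map_bot, inf_bot_eq])⟩
  | _, .prj t h s, a, H => ⟨all_ne_bot t (ne_bot_of_le inf_le_left H), all_ne_bot s fun h0 =>
      H (show S.val t a.1 ⊓ S.p h (S.val s a.2) = ⊥ by rw [h0, Sys.p, pj_bot, inf_bot_eq])⟩

theorem Coh.head_ne : ∀ {i : I} (t : Tm I i) {a : S.Asg t}, S.Coh t a → Fam.head t a ≠ ⊥
  | _, .var _, _, h => h
  | _, .emb t _ _, _, h => Coh.head_ne t h.1
  | _, .prj t _ _, _, h => Coh.head_ne t h.1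

theorem Coh.val_eq : ∀ {i : I} (t : Tm I i) {a : S.Asg t}, S.Coh t a → S.val t a = Fam.head t a
  | _, .var _, _, _ => rfl
  | _, .emb t h s, a, H => by
    show S.val t a.1 ⊓ S.e h (S.val s a.2) = Fam.head t a.1
    rw [Coh.val_eq t H.1, Coh.val_eq s H.2.1, ← H.2.2]
    exact inf_eq_left.2 (le_map_pj _ _)
  | _, .prj t h s, a, H => by
    show S.val t a.1 ⊓ S.p h (S.val s a.2) = Fam.head t a.1
    rw [Coh.val_eq t H.1, Coh.val_eq s H.2.1, H.2.2, inf_idem]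

theorem Coh.val_ne {i : I} {t : Tm I i} {a : S.Asg t} (h : S.Coh t a) : S.val t a ≠ ⊥ := by
  rw [Coh.val_eq t h]
  exact Coh.head_ne t h

theorem exists_coh : ∀ {i : I} (t : Tm I i) (a : S.Asg t) (x : S.X i), x ≠ ⊥ → x ≤ S.val t a →
    ∃ a' : S.Asg t, S.Le t a' a ∧ S.Coh t a' ∧ Fam.head t a' = x
  | _, .var _, _, x, h0, h => ⟨x, h, h0, rfl⟩
  | _, .emb t h s, a, x, h0, H => by
    obtain ⟨b, h1, h2, h3⟩ := exists_coh t a.1 x h0 (H.trans inf_le_left)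
    obtain ⟨c, h4, h5, h6⟩ := exists_coh s a.2 (S.p h x) (pj_ne_bot.2 h0)
      (pj_le.2 (H.trans inf_le_right))
    exact ⟨(b, c), ⟨h1, h4⟩, ⟨h2, h5, by rw [h3, h6]⟩, h3⟩
  | _, .prj t h s, a, x, h0, H => by
    obtain ⟨b, h1, h2, h3⟩ := exists_coh t a.1 x h0 (H.trans inf_le_left)
    have h7 : S.p h (S.val s a.2 ⊓ S.e h x) = x := by
      rw [Sys.p, pj_inf]
      exact inf_eq_right.2 (H.trans inf_le_right)
    obtain ⟨c, h4, h5, h6⟩ := exists_coh s a.2 (S.val s a.2 ⊓ S.e h x)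
      ((pj_ne_bot (f := S.e h)).1 fun h8 => h0 (h7.symm.trans h8)) inf_le_left
    exact ⟨(b, c), ⟨h1, h4⟩, ⟨h2, h5, by rw [h3, h6, h7]⟩, h3⟩

theorem exists_coh' {i : I} (t : Tm I i) (a : S.Asg t) (h : S.val t a ≠ ⊥) :
    ∃ a' : S.Asg t, S.Le t a' a ∧ S.Coh t a' := by
  obtain ⟨a', h1, h2, -⟩ := exists_coh t a _ h le_rfl
  exact ⟨a', h1, h2⟩

theorem exists_dense_aux (D : ∀ i, S.X i → Prop) :
    ∀ {i : I} (t : Tm I i) (a : S.Asg t) (x : S.X i),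
    Fam.All (fun i a => ∀ y, y ≠ ⊥ → y ≤ a → ∃ d, D i d ∧ d ≠ ⊥ ∧ d ≤ y) t a →
    x ⊓ S.val t a ≠ ⊥ → ∃ a' : S.Asg t, S.Le t a' a ∧ Fam.All D t a' ∧ x ⊓ S.val t a' ≠ ⊥
  | _, .var i, a, x, hD, h => by
    obtain ⟨d, h1, h2, h3⟩ := hD _ h inf_le_right
    exact ⟨d, h3.trans inf_le_right, h1,
      ne_bot_of_le (le_inf (h3.trans inf_le_left) (le_refl (α := S.X i) d)) h2⟩
  | _, .emb t h s, a, x, hD, H => by
    obtain ⟨b, h1, h2, h3⟩ := exists_dense_aux D t a.1 (x ⊓ S.e h (S.val s a.2)) hD.1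
      (by rw [inf_right_comm, inf_assoc]; exact H)
    rw [inf_right_comm, inf_map_ne_bot] at h3
    obtain ⟨c, h4, h5, h6⟩ := exists_dense_aux D s a.2 _ hD.2 h3
    refine ⟨(b, c), ⟨h1, h4⟩, ⟨h2, h5⟩, ?_⟩
    rw [← inf_map_ne_bot, inf_assoc] at h6
    exact h6
  | _, .prj t h s, a, x, hD, H => by
    obtain ⟨b, h1, h2, h3⟩ := exists_dense_aux D t a.1 (x ⊓ S.p h (S.val s a.2)) hD.1
      (by rw [inf_right_comm, inf_assoc]; exact H)
    rw [inf_right_comm, inf_comm, ← inf_map_ne_bot, inf_comm] at h3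
    obtain ⟨c, h4, h5, h6⟩ := exists_dense_aux D s a.2 _ hD.2 h3
    refine ⟨(b, c), ⟨h1, h4⟩, ⟨h2, h5⟩, ?_⟩
    rw [inf_comm, inf_map_ne_bot, inf_comm, inf_assoc] at h6
    exact h6

/-- refinement of all slots into sets that are dense below the slots -/
theorem exists_dense (D : ∀ i, S.X i → Prop) {i : I} (t : Tm I i) (a : S.Asg t)
    (hD : Fam.All (fun i a => ∀ y, y ≠ ⊥ → y ≤ a → ∃ d, D i d ∧ d ≠ ⊥ ∧ d ≤ y) t a)
    (h : S.val t a ≠ ⊥) : ∃ a' : S.Asg t, S.Le t a' a ∧ Fam.All D t a' ∧ S.val t a' ≠ ⊥ := by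
  simpa using exists_dense_aux D t a ⊤ hD (by simpa using h)

variable {ι : Type}

theorem fin_singleton {i : I} (t : Tm I i) (a : Fam (fun i => ι → S.X i) t) (k : ι) :
    S.fin t a {k} = S.mem t a k := Fam.map_congr (fun _ _ => Finset.inf_singleton) t a

theorem fin_le_mem {i : I} (t : Tm I i) (a : Fam (fun i => ι → S.X i) t) {F : Finset ι} {k : ι}
    (h : k ∈ F) : S.Le t (S.fin t a F) (S.mem t a k) :=
  Fam.all₂_map_same (Q := fun i (x y : S.X i) => x ≤ y) (fun _ p => F.inf p) (fun _ p => p k)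
    (fun _ _ => Finset.inf_le h) t a

theorem fin_anti {i : I} (t : Tm I i) (a : Fam (fun i => ι → S.X i) t) {F F' : Finset ι}
    (h : F ⊆ F') : S.Le t (S.fin t a F') (S.fin t a F) :=
  Fam.all₂_map_same _ _ (fun _ _ => Finset.inf_mono h) t a

theorem le_fin : ∀ {i : I} (t : Tm I i) (a : Fam (fun i => ι → S.X i) t) {F : Finset ι}
    {b : S.Asg t}, (∀ k ∈ F, S.Le t b (S.mem t a k)) → S.Le t b (S.fin t a F)
  | _, .var _, _, _, _, h => Finset.le_inf (α := S.X _) h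
  | _, .emb t _ s, a, _, _, h =>
    ⟨le_fin t a.1 fun k hk => (h k hk).1, le_fin s a.2 fun k hk => (h k hk).2⟩
  | _, .prj t _ s, a, _, _, h =>
    ⟨le_fin t a.1 fun k hk => (h k hk).1, le_fin s a.2 fun k hk => (h k hk).2⟩

theorem mem_pi {i : I} (t : Tm I i) (a : ι → S.Asg t) (k : ι) : S.mem t (Fam.pi t a) k = a k :=
  Fam.map_pi k t a

theorem gn_tm : ∀ {i : I} (t : Tm I i) (a : Fam (fun i => ι → S.X i) t),
    S.Gn ι i fun F => S.val t (S.fin t a F)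
  | _, .var i, a => Gn.var i a
  | _, .emb t h s, a => Gn.emb h (gn_tm t a.1) (gn_tm s a.2)
  | _, .prj t h s, a => Gn.prj h (gn_tm t a.1) (gn_tm s a.2)

theorem Gn.exists_tm {i : I} {Φ : Finset ι → S.X i} (h : S.Gn ι i Φ) :
    ∃ (t : Tm I i) (a : Fam (fun i => ι → S.X i) t), Φ = fun F => S.val t (S.fin t a F) := by
  induction h with
  | var i p => exact ⟨.var i, p, rfl⟩
  | emb h _ _ ih1 ih2 =>
    obtain ⟨t, a, rfl⟩ := ih1
    obtain ⟨s, b, rfl⟩ := ih2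
    exact ⟨.emb t h s, (a, b), rfl⟩
  | prj h _ _ ih1 ih2 =>
    obtain ⟨t, a, rfl⟩ := ih1
    obtain ⟨s, b, rfl⟩ := ih2
    exact ⟨.prj t h s, (a, b), rfl⟩

theorem Gn.of_eq {i : I} {Φ Ψ : Finset ι → S.X i} (h : S.Gn ι i Φ) (e : ∀ F, Ψ F = Φ F) :
    S.Gn ι i Ψ := by
  obtain rfl : Ψ = Φ := funext e
  exact h

theorem Gn.top (i : I) : S.Gn ι i fun _ => ⊤ :=
  (Gn.var i fun _ => ⊤).of_eq fun F => by simp [Finset.inf_top]

theorem Gn.inf {i : I} {Φ Ψ : Finset ι → S.X i} (h : S.Gn ι i Φ) (h' : S.Gn ι i Ψ) :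
    S.Gn ι i fun F => Φ F ⊓ Ψ F :=
  (Gn.emb le_rfl h h').of_eq fun F => by rw [S.e_refl]

theorem Gn.map_e {i j : I} (h : j ≤ i) {Ψ : Finset ι → S.X j} (H : S.Gn ι j Ψ) :
    S.Gn ι i fun F => S.e h (Ψ F) := (Gn.emb h (Gn.top i) H).of_eq fun F => by simp

theorem Gn.map_p {i j : I} (h : i ≤ j) {Ψ : Finset ι → S.X j} (H : S.Gn ι j Ψ) :
    S.Gn ι i fun F => S.p h (Ψ F) := (Gn.prj h (Gn.top i) H).of_eq fun F => by simp

theorem Gn.finset_inf {i : I} {κ : Type} (T : Finset κ) {Φ : κ → Finset ι → S.X i}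
    (h : ∀ x ∈ T, S.Gn ι i (Φ x)) : S.Gn ι i fun F => T.inf fun x => Φ x F := by
  classical
  induction T using Finset.induction_on with
  | empty => exact (Gn.top i).of_eq fun F => Finset.inf_empty
  | insert x T _ ih =>
    exact ((h x (Finset.mem_insert_self x T)).inf
      (ih fun y hy => h y (Finset.mem_insert_of_mem hy))).of_eq fun F => Finset.inf_insert

theorem Gn.iInf {i : I} {κ : Type} {Φ : κ → Finset ι → S.X i} (hf : (Set.range Φ).Finite)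
    (h : ∀ x, S.Gn ι i (Φ x)) : S.Gn ι i fun F => ⨅ x, Φ x F := by
  refine (Gn.finset_inf hf.toFinset (Φ := id) fun Ψ hΨ => ?_).of_eq fun F => ?_
  · obtain ⟨x, rfl⟩ := hf.mem_toFinset.1 hΨ
    exact h x
  · refine le_antisymm (Finset.le_inf fun Ψ hΨ => ?_) (le_iInf fun x =>
      Finset.inf_le (f := fun Ψ : Finset ι → S.X i => id Ψ F) (hf.mem_toFinset.2 ⟨x, rfl⟩))
    obtain ⟨x, rfl⟩ := hf.mem_toFinset.1 hΨ
    exact iInf_le (fun x => Φ x F) x

theorem Gn.anti {i : I} {Φ : Finset ι → S.X i} (h : S.Gn ι i Φ) {F F' : Finset ι} (H : F ⊆ F') :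
    Φ F' ≤ Φ F := by
  obtain ⟨t, a, rfl⟩ := h.exists_tm
  exact val_mono t (fin_anti t a H)

theorem Gn.comap {f : J → I} {hf : Monotone f} {j : J} {Φ : Finset ι → S.X (f j)}
    (h : (S.comap f hf).Gn ι j Φ) : S.Gn ι (f j) Φ := by
  refine Gn.rec (S := S.comap f hf) (motive := fun j Φ _ => S.Gn ι (f j) Φ) ?_ ?_ ?_ h
  · exact fun i p => Gn.var (f i) p
  · exact fun h _ _ _ _ ih1 ih2 => Gn.emb (hf h) ih1 ih2
  · exact fun h _ _ _ _ ih1 ih2 => Gn.prj (hf h) ih1 ih2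

theorem K.comap (h : S.K) (f : J → I) (hf : Monotone f) : (S.comap f hf).K :=
  fun ι h1 h2 j Φ hΦ => h ι h1 h2 (f j) Φ hΦ.comap

theorem K_of_tm (h : ∀ ι : Type, (#ι).IsRegular → ℵ₀ < #ι → ∀ (i : I) (t : Tm I i)
    (a : Fam (fun i => ι → S.X i) t) (A₀ : Set ι), #A₀ = #ι →
      (∀ k ∈ A₀, S.val t (S.mem t a k) ≠ ⊥) → Frac A₀ fun F => S.val t (S.fin t a F) ≠ ⊥) :
    S.K := by
  intro ι h1 h2 i Φ hΦ A₀ h3 h4
  obtain ⟨t, a, rfl⟩ := hΦ.exists_tm
  exact h ι h1 h2 i t a A₀ h3 fun k hk => by simpa only [fin_singleton] using h4 k hk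

theorem K.tm (h : S.K) (h1 : (#ι).IsRegular) (h2 : ℵ₀ < #ι) {i : I} (t : Tm I i)
    (a : Fam (fun i => ι → S.X i) t) {A₀ : Set ι} (h3 : #A₀ = #ι)
    (h4 : ∀ k ∈ A₀, S.val t (S.mem t a k) ≠ ⊥) : Frac A₀ fun F => S.val t (S.fin t a F) ≠ ⊥ :=
  h ι h1 h2 i _ (gn_tm t a) A₀ h3 fun k hk => by simpa only [fin_singleton] using h4 k hk

end Sys

theorem Frac.mono {ι : Type} {A₀ A₁ : Set ι} {good good' : Finset ι → Prop} (h : Frac A₁ good)
    (hA : A₁ ⊆ A₀) (H : ∀ F : Finset ι, (F : Set ι) ⊆ A₁ → good F → good' F) : Frac A₀ good' := by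
  intro ε hε
  obtain ⟨A, h1, h2, h3⟩ := h ε hε
  refine ⟨A, h1.trans hA, h2, fun F hF => ?_⟩
  obtain ⟨F', h4, h5, h6⟩ := h3 F hF
  exact ⟨F', h4, h5, H F' ((Finset.coe_subset.2 h4).trans (hF.trans h1)) h6⟩

/-- thinning out: a map into a countable type has a fibre of full size -/
theorem exists_fiber {ι C : Type} [Countable C] (h1 : (#ι).IsRegular) (h2 : ℵ₀ < #ι) {A₀ : Set ι}
    (h3 : #A₀ = #ι) (f : ι → C) : ∃ c, #{k | k ∈ A₀ ∧ f k = c} = #ι := by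
  by_contra hc
  push Not at hc
  have h4 : A₀ = ⋃ c, {k | k ∈ A₀ ∧ f k = c} := by
    ext k
    simp
  have h5 : #(⋃ c, {k | k ∈ A₀ ∧ f k = c} : Set ι) < #ι :=
    (mk_iUnion_le_sum_mk.trans_lt (sum_lt_of_isRegular h1 (mk_le_aleph0.trans_lt h2) fun c =>
      lt_of_le_of_ne (mk_set_le _) (hc c)))
  rw [← h4, h3] at h5
  exact lt_irrefl _ h5

/-- thinning out a relation into a countable type -/
theorem exists_fiber' {ι C : Type} [Countable C] (h1 : (#ι).IsRegular) (h2 : ℵ₀ < #ι)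
    {A₀ : Set ι} (h3 : #A₀ = #ι) (P : ι → C → Prop) (hP : ∀ k ∈ A₀, ∃ c, P k c) :
    ∃ (c : C) (A₁ : Set ι), A₁ ⊆ A₀ ∧ #A₁ = #ι ∧ ∀ k ∈ A₁, P k c := by
  classical
  have hne : A₀.Nonempty := by
    rw [Set.nonempty_iff_ne_empty]
    rintro rfl
    rw [← h3] at h2
    simp at h2
  obtain ⟨k0, hk0⟩ := hne
  obtain ⟨c0, -⟩ := hP k0 hk0
  obtain ⟨c, hc⟩ := exists_fiber h1 h2 h3 fun k => if h : k ∈ A₀ then (hP k h).choose else c0
  refine ⟨c, _, fun k hk => hk.1, hc, fun k hk => ?_⟩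
  have := hk.2
  rw [dif_pos hk.1] at this
  exact this ▸ (hP k hk.1).choose_spec

theorem Sys.K.ccc {S : Sys I} (h : S.K) (i : I) : CCC (S.X i) := by
  classical
  intro ι f hf
  by_contra hc
  have h1 : ℵ₁ ≤ #{k | f k ≠ ⊥} := by
    rw [← succ_aleph0, Order.succ_le_iff]
    exact lt_of_not_ge fun h0 => hc (le_aleph0_iff_set_countable.1 h0)
  obtain ⟨A, hA, h2⟩ := le_mk_iff_exists_subset.1 h1
  obtain ⟨B, -, h3, h4⟩ := h A (h2 ▸ isRegular_aleph_one) (h2 ▸ aleph0_lt_aleph_one) i _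
    (Sys.Gn.var i fun k => f k.1) Set.univ mk_univ
    (fun k _ => by simpa using hA k.2) (1 / 4) (by norm_num)
  have h5 : B.Nontrivial := by
    rw [← Set.nontrivial_coe_sort, ← one_lt_iff_nontrivial, h3, h2]
    exact one_lt_aleph0.trans aleph0_lt_aleph_one
  obtain ⟨k, hk, l, hl, hkl⟩ := h5
  obtain ⟨F', h6, h7, h8⟩ := h4 {k, l} (by
    rw [Finset.coe_pair]
    exact Set.pair_subset hk hl)
  rw [Finset.card_pair hkl] at h7
  have h9 : 2 ≤ F'.card := by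
    have : (1 : ℝ) < F'.card := by push_cast at h7; linarith
    exact_mod_cast this
  rw [Finset.eq_of_subset_of_card_le h6 (by rwa [Finset.card_pair hkl]), Finset.inf_insert,
    Finset.inf_singleton] at h8
  exact h8 (hf _ _ fun e => hkl (Subtype.ext e))

section Unb
variable {X X' Y Z : Type} [CompleteBooleanAlgebra X] [CompleteBooleanAlgebra X']
  [CompleteBooleanAlgebra Y] [CompleteBooleanAlgebra Z]

theorem Mat.map {t : ℕ → ℕ → Y} (h : Mat t) (f : Hm Y Z) : Mat fun n k => f (t n k) :=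
  ⟨fun n k => hm_mono f (h.1 n k), fun n k => hm_mono f (h.2 n k)⟩

theorem Mat.mono {t : ℕ → ℕ → Y} (h : Mat t) {n n' : ℕ} (hn : n ≤ n') (k : ℕ) :
    t n k ≤ t n' k := monotone_nat_of_le_succ (f := fun n => t n k) (fun n => h.1 n k) hn

theorem Mat.anti {t : ℕ → ℕ → Y} (h : Mat t) (n : ℕ) {k k' : ℕ} (hk : k ≤ k') :
    t n k' ≤ t n k := antitone_nat_of_succ_le (f := t n) (h.2 n) hk

theorem Unb.of_dense {e : Hm X Y} {t : ℕ → ℕ → Y}
    (h : ∀ p, p ≠ ⊥ → ∃ p', p' ≤ p ∧ ∃ n, (⨅ k, pj e (p' ⊓ t n k)) ≠ ⊥) : Unb e t := by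
  intro p hp
  obtain ⟨p', h1, n, h2⟩ := h p hp
  exact ⟨n, ne_bot_of_le (iInf_mono fun k => pj_mono e (inf_le_inf_right _ h1)) h2⟩

theorem Unb.pj_le {e : Hm X Y} {t : ℕ → ℕ → Y} (h : Unb e t) (p : Y) :
    pj e p ≤ ⨆ n, ⨅ k, pj e (p ⊓ t n k) := by
  refine le_of_forall_inf fun x hx hp => ?_
  obtain ⟨n, hn⟩ := h (p ⊓ e x) (inf_map_ne_bot.2 (by rwa [inf_eq_right.2 hp]))
  refine ne_bot_of_le (le_inf ((iInf_le _ 0).trans ?_) (le_iSup_of_le n (iInf_mono fun k =>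
    pj_mono e (inf_le_inf_right _ inf_le_left)))) hn
  exact U.pj_le.2 (inf_le_left.trans inf_le_right)

/-- `(U1)`: pass to a smaller lower algebra and to an upper algebra that contains the matrix -/
theorem Unb.down {f : Hm X X'} {g : Hm X' Z} {e : Hm X Y}
    {k : Hm Y Z} (hk : Function.Injective k) (H : ∀ x, g (f x) = k (e x)) {t : ℕ → ℕ → Y}
    (h : Unb g fun n l => k (t n l)) : Unb e t := by
  intro p hp
  obtain ⟨n, hn⟩ := h (k p) (hm_ne_bot hk hp)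
  refine ⟨n, fun h0 => hn (le_bot_iff.1 ?_)⟩
  rw [← map_bot f, ← h0, map_iInf]
  refine iInf_mono fun l => U.pj_le.2 ?_
  rw [H, ← map_inf]
  exact hm_mono k (le_map_pj e _)

/-- `(U2)`: pass to a larger upper algebra -/
theorem Unb.up {e : Hm X Y} {k : Hm Y Z} {g : Hm X Z} (H : ∀ x, k (e x) = g x) {t : ℕ → ℕ → Y}
    (h : Unb e t) : Unb g fun n l => k (t n l) := by
  intro p hp
  obtain ⟨n, hn⟩ := h (pj k p) (pj_ne_bot.2 hp)
  refine ⟨n, ?_⟩
  simpa only [← pj_pj H, pj_inf] using hn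

/-- how an unbounded matrix is used -/
theorem Unb.exists {e : Hm X Y} {t : ℕ → ℕ → Y} (h : Unb e t) {p : Y} (hp : p ≠ ⊥)
    (H : ℕ → ℕ → X) (hH : ∀ n, pj e p ≤ ⨆ k, H n k) :
    ∃ n k, p ⊓ t n k ⊓ e (H n k) ≠ ⊥ := by
  obtain ⟨n, hn⟩ := h p hp
  obtain ⟨k, hk⟩ := exists_inf_ne_bot_of_le hn
    (((iInf_le (fun k => pj e (p ⊓ t n k)) 0).trans (pj_mono e inf_le_left)).trans (hH n))
  exact ⟨n, k, inf_map_ne_bot.2 (ne_bot_of_le (inf_le_inf_right _ (iInf_le _ k)) hk)⟩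

end Unb

end Pool.Agent.Lib.MP_f79ffc_lc.U
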